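import Pool.Agent.Helper976_Bal.Main

set_option autoImplicit false

/-!
# Balancing unit vectors under the parity condition: radius `√(d - 1/2)`

If `n` and `d` have opposite parity, then any `n` unit vectors in `ℝ^d` have a signed sum of norm at
most `√(d - 1/2)`. Without the parity condition `√d` cannot be improved (orthonormal vectors).

Sketch. Let `R` be the least squared norm of a signed sum and suppose `R > d - 1/2`. Call
`x ∈ [-1,1]^n` with `∑ x i • v i = 0` a vertex if at most `d` of its coordinates are not `±1`
(alive). Rounding the alive coordinates by random signs with the weights `(1 + l ∑ x i η i)²`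
and `1 + sin (∑ θ i η i)` shows that the frozen vectors of a vertex have a sum of norm at
most `1/2`, and that exactly `d` coordinates are alive. Releasing one frozen vector `v i` leads to
a vertex where another vector `v j` has been frozen, and comparing the two frozen sums gives
`‖v i ± v j‖ ≤ 1`. Hence a family of vectors with `‖v i ± v j‖ > 1` for all pairs has at most `d`
members: all of them can be made alive. Now pair up the vectors greedily into close pairs. At
most `d` vectors remain, and so at most `d - 1` by parity. A vertex of the system formed by the
remaining vectors and the differences of the pairs gives the contradiction, by comparing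
independent rounding, the weights `(1 + ∑ x i η i)²`, and, with one pair split, the weights
`(∑ z i η i)²` for a linear relation `z`.
-/

namespace Pool.Agent.Results.MP_1be6c9_co.HalfGap

/-- If `n` and `d` have opposite parity, every family of `n` unit vectors of `ℝ^d` has a signing
whose signed sum has norm at most `√(d - 1/2)`. -/
theorem result (d n : ℕ) (hpar : n % 2 ≠ d % 2) (v : Fin n → EuclideanSpace ℝ (Fin d))
    (hv : ∀ i, ‖v i‖ = 1) :
    ∃ η : Fin n → ℝ, (∀ i, η i = 1 ∨ η i = -1) ∧
      ‖∑ i, η i • v i‖ ≤ Real.sqrt ((d : ℝ) - 1 / 2) := by
  obtain ⟨η, hη, h⟩ := Pool.Agent.Helper976.Bal.main v hv (by simpa using hpar)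
  refine ⟨η, hη, Real.le_sqrt_of_sq_le ?_⟩
  simpa using h

end Pool.Agent.Results.MP_1be6c9_co.HalfGap
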